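import Pool.Agent.Lib.MP_53850c_co.RC.Final
import Pool.Agent.Lib.MP_53850c_co.RC.Spec

/-!
# `Q_d`-free subgraphs of the hypercube given by rules of bounded complexity

An edge of `Q_n` is a word of length `n` over `{0, 1, *}` with one star. A rule of complexity
`(s, k, D, A, δ)` decides about a word by means of
* the value of a formula with at most `k n` leaves over an alphabet of `s` letters,
* a sum of functions of at most `D` letters each, with values in the finite commutative monoid `A`
  (for example several polynomials of degree at most `D` modulo `m`),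
* any function of average sensitivity at most `δ n`.
`gamR s k D A δ n d` is the largest proportion of edges in a `Q_d`-free subgraph of `Q_n` whose set of
missing edges agrees with such a rule except on a proportion at most `δ` of the edges
(definitions in `Pool/Agent/Lib/MP_53850c_co/RC/Defs.lean`, `PD/Defs.lean`, `PD/LowTools.lean` and
`LF/Formula.lean`).
-/

namespace Pool.Agent.Results.MP_53850c_co.BoundedComplexity

open Pool.Agent.Lib.MP_53850c_co.RC Filter Topology

/-- For rules of bounded complexity, with `δ = δ n → 0`, the restricted version of `γ(n, d)` tends to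
the value `1 - 1 / ⌊(d+1)² / 4⌋` of the construction of Alon, Krech and Szabó. -/
theorem result (A : Type) [AddCommMonoid A] [Finite A] (d s k D : ℕ) (hd : 2 ≤ d) (hs : d + 2 ≤ s)
    (hk : 1 ≤ k) (δ : ℕ → ℝ) (hδ0 : ∀ n, 0 ≤ δ n) (hδ : Tendsto δ atTop (𝓝 0)) :
    Tendsto (fun n => gamR s k D A (δ n) n d) atTop
      (𝓝 (1 - 1 / (((d + 1) ^ 2 / 4 : ℕ) : ℝ))) :=
  edges specApproxE A (by omega) hs hk δ hδ0 hδ

end Pool.Agent.Results.MP_53850c_co.BoundedComplexity
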