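import Pool.Agent.Lib.MP_7c0edd_co.H26.Final2

/-!
# The edge Turan density of the `d`-cube in the hypercube: `1 - γ_d = 2^(-d) d^(O(1))`

`cubeG n` is the graph `Q_n`, `exCube n d = ex(Q_n, Q_d)` and `gam n d = ex(Q_n, Q_d) / e(Q_n)`
(definitions in `Pool/Agent/Lib/MP_7c0edd_co/H26/Spec.lean`).
-/

namespace Pool.Agent.Results.MP_53850c_co.ExponentialRate

open Pool.Agent.Lib.MP_7c0edd_co.H21 MP7c0edd Filter Topology

/-- `(a x)^(1/x) → 1` for `a > 0` -/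
theorem root_tendsto (a : ℝ) (ha : 0 < a) :
    Tendsto (fun d : ℕ => (a * d) ^ ((1 : ℝ) / d)) atTop (𝓝 1) := by
  have h1 : Tendsto (fun x : ℝ => x ^ ((1 : ℝ) / x)) atTop (𝓝 1) := tendsto_rpow_div
  have h2 : Tendsto (fun d : ℕ => (d : ℝ) ^ ((1 : ℝ) / d)) atTop (𝓝 1) :=
    h1.comp tendsto_natCast_atTop_atTop
  have h3 : Tendsto (fun d : ℕ => (1 : ℝ) / d) atTop (𝓝 0) := tendsto_one_div_atTop_nhds_zero_nat
  have h4 : Tendsto (fun d : ℕ => a ^ ((1 : ℝ) / d)) atTop (𝓝 (a ^ (0 : ℝ))) :=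
    tendsto_const_nhds.rpow h3 (Or.inl ha.ne')
  have h5 := h4.mul h2
  rw [Real.rpow_zero, one_mul] at h5
  refine h5.congr fun d => ?_
  rw [Real.mul_rpow ha.le (by positivity)]

/-- The limits `γ_d` exist, `log₂ (d + 2) / (2^(d+1) (d + 1)) ≤ 1 - γ_d ≤ C d / 2^d` for all
`d ≥ 2` with an absolute constant `C`, and `(1 - γ_d)^(1/d) → 1/2`. -/
theorem result : ∃ (C : ℝ) (γ : ℕ → ℝ),
    (∀ d : ℕ, 2 ≤ d → Tendsto (fun n => gam n d) atTop (𝓝 (γ d)) ∧
      Real.logb 2 (d + 2) / (2 ^ (d + 1) * (d + 1)) ≤ 1 - γ d ∧ 1 - γ d ≤ C * d / 2 ^ d) ∧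
    Tendsto (fun d : ℕ => (1 - γ d) ^ ((1 : ℝ) / d)) atTop (𝓝 (1 / 2)) := by
  obtain ⟨⟨C, hC⟩, _, _⟩ := MP7c0edd.specFinal2
  set C' : ℝ := 2 * |C| + 1 with hC'
  have hC'0 : 0 < C' := by positivity
  have key : ∀ d : ℕ, 2 ≤ d → Tendsto (fun n => gam n d) atTop (𝓝 (1 - cLim d 1)) ∧
      Real.logb 2 (d + 2) / (2 ^ (d + 1) * (d + 1)) ≤ 1 - (1 - cLim d 1) ∧
      1 - (1 - cLim d 1) ≤ C' * d / 2 ^ d := by
    intro d hd
    have hd0 : (0 : ℝ) < d := by
      have : 0 < d := by omega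
      exact_mod_cast this
    refine ⟨tendsto_gam hd, ?_, ?_⟩
    · rw [sub_sub_cancel]
      have h1 := (c_ge_log (n := d + 2) (d := d) (l := 1) (by omega) le_rfl).trans
        (c_le_cLim (by omega) (d + 2))
      rw [show d + 2 - 1 = d + 1 by omega, Nat.choose_one_right] at h1
      push_cast at h1
      exact h1
    · rw [sub_sub_cancel]
      have h1 := hC d 1 (by omega)
      rw [Nat.choose_one_right] at h1
      refine h1.trans ?_
      have h2 : (2 : ℝ) ^ d = 2 * 2 ^ (d - 1) := by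
        rw [← pow_succ']; congr 1; omega
      rw [h2, div_le_div_iff₀ (by positivity) (by positivity)]
      have h3 : C ≤ |C| := le_abs_self C
      have h4 : (0 : ℝ) ≤ (d : ℝ) ^ 2 * (2 ^ (d - 1)) := by positivity
      have h5 : C * (d : ℝ) ^ 2 * (2 * 2 ^ (d - 1)) ≤ |C| * (d : ℝ) ^ 2 * (2 * 2 ^ (d - 1)) := by
        gcongr
      refine h5.trans ?_
      have h6 : C' * (d : ℝ) * (2 ^ (d - 1) * d)
          = |C| * (d : ℝ) ^ 2 * (2 * 2 ^ (d - 1)) + (d : ℝ) ^ 2 * (2 ^ (d - 1)) := by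
        rw [hC']; ring
      rw [h6]
      linarith
  refine ⟨C', fun d => 1 - cLim d 1, key, ?_⟩
  have hup := root_tendsto C' hC'0
  have hlo := root_tendsto 4 (by norm_num)
  have hlo' : Tendsto (fun d : ℕ => ((4 * (d : ℝ)) ^ ((1 : ℝ) / d))⁻¹ * (1 / 2)) atTop
      (𝓝 ((1 : ℝ)⁻¹ * (1 / 2))) := (hlo.inv₀ one_ne_zero).mul_const _
  have hup' : Tendsto (fun d : ℕ => (C' * (d : ℝ)) ^ ((1 : ℝ) / d) * (1 / 2)) atTop
      (𝓝 (1 * (1 / 2))) := hup.mul_const _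
  rw [inv_one, one_mul] at hlo'
  rw [one_mul] at hup'
  have hroot : ∀ d : ℕ, 2 ≤ d → ((2 : ℝ) ^ d) ^ ((1 : ℝ) / d) = 2 := by
    intro d hd
    rw [← Real.rpow_natCast, ← Real.rpow_mul (by norm_num), mul_one_div,
      div_self (by positivity), Real.rpow_one]
  refine tendsto_of_tendsto_of_tendsto_of_le_of_le' hlo' hup' ?_ ?_
  · filter_upwards [eventually_ge_atTop 2] with d hd
    obtain ⟨_, h1, _⟩ := key d hd
    have hd1 : (2 : ℝ) ≤ d := by exact_mod_cast hd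
    have h2 : 1 / (4 * d * 2 ^ d) ≤ 1 - (1 - cLim d 1) := by
      refine le_trans ?_ h1
      have h3 : (1 : ℝ) ≤ Real.logb 2 (d + 2) := by
        rw [Real.le_logb_iff_rpow_le (by norm_num) (by positivity), Real.rpow_one]
        linarith
      have h4 : (2 : ℝ) ^ (d + 1) * (d + 1) ≤ 4 * d * 2 ^ d := by
        rw [pow_succ]
        have : (0 : ℝ) < 2 ^ d := by positivity
        nlinarith
      calc 1 / (4 * d * 2 ^ d) ≤ 1 / ((2 : ℝ) ^ (d + 1) * (d + 1)) :=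
            one_div_le_one_div_of_le (by positivity) h4
        _ ≤ _ := by gcongr
    have h5 : (1 / (4 * d * 2 ^ d) : ℝ) ^ ((1 : ℝ) / d)
        = ((4 * (d : ℝ)) ^ ((1 : ℝ) / d))⁻¹ * (1 / 2) := by
      rw [one_div (4 * (d : ℝ) * 2 ^ d), Real.inv_rpow (by positivity),
        Real.mul_rpow (by positivity) (by positivity), hroot d hd, mul_inv, one_div 2]
    rw [← h5]
    exact Real.rpow_le_rpow (by positivity) h2 (by positivity)
  · filter_upwards [eventually_ge_atTop 2] with d hd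
    obtain ⟨_, h0, h1⟩ := key d hd
    have hnn : 0 ≤ 1 - (1 - cLim d 1) := by
      refine le_trans ?_ h0
      have h3 : 0 ≤ Real.logb 2 (d + 2) := Real.logb_nonneg (by norm_num) (by
        have : (0 : ℝ) ≤ d := by positivity
        linarith)
      positivity
    have h5 : (C' * d / 2 ^ d : ℝ) ^ ((1 : ℝ) / d) = (C' * d) ^ ((1 : ℝ) / d) * (1 / 2) := by
      rw [Real.div_rpow (by positivity) (by positivity), hroot d hd, mul_one_div]
    rw [← h5]
    exact Real.rpow_le_rpow hnn h1 (by positivity)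

end Pool.Agent.Results.MP_53850c_co.ExponentialRate
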