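import Mathlib
import Pool.Agent.Lib.MP_53850c_co.Global

set_option autoImplicit false

/-!
# The edge Turan density of the 3-cube in the hypercube is at most 0.853

`γ(n, 3) = ex(Q_n, Q_3) / e(Q_n)` converges as `n → ∞` and its limit is at most `0.853`.
-/

namespace Pool.Agent.Results.MP_53850c_co.GammaThreeBound

open Finset Pool.Agent.Lib.MP53850c

/-- The `n`-dimensional hypercube `Q_n`: vertices are the `0/1` vectors of length `n`, two of them
being adjacent when they differ in exactly one coordinate. -/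
def cube (n : ℕ) : SimpleGraph (Fin n → Bool) where
  Adj x y := (Finset.univ.filter fun i => x i ≠ y i).card = 1
  symm := ⟨by
    intro x y h
    simpa only [ne_comm] using h⟩
  loopless := ⟨by
    intro x h
    simp at h⟩

/-- `ex(Q_n, Q_d)`: the largest number of edges of a subgraph of `Q_n` that contains no subgraph
isomorphic to `Q_d`. -/
noncomputable def exCube (n d : ℕ) : ℕ :=
  sSup {m : ℕ | ∃ G : SimpleGraph (Fin n → Bool),
    G ≤ cube n ∧ (cube d).Free G ∧ G.edgeSet.ncard = m}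

/-- `γ(n, d) = ex(Q_n, Q_d) / e(Q_n)`. -/
noncomputable def gam (n d : ℕ) : ℝ := (exCube n d : ℝ) / ((cube n).edgeSet.ncard : ℝ)

theorem cube_adj_iff {n : ℕ} (v w : Fin n → Bool) : (cube n).Adj v w ↔ ∃ i, w = fl v i := by
  change (Finset.univ.filter fun i => v i ≠ w i).card = 1 ↔ _
  rw [Finset.card_eq_one]
  constructor
  · rintro ⟨i, hi⟩
    refine ⟨i, ?_⟩
    funext t
    have ht : t ∈ (Finset.univ.filter fun i => v i ≠ w i) ↔ t ∈ ({i} : Finset (Fin n)) := by
      rw [hi]
    simp only [Finset.mem_filter, Finset.mem_univ, true_and, Finset.mem_singleton] at ht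
    by_cases hti : t = i
    · have := ht.2 hti
      simp only [fl, hti, decide_true, Bool.xor_true]
      rw [hti] at this
      cases hv : v i <;> cases hw : w i <;> simp_all
    · have : v t = w t := by
        by_contra h
        exact hti (ht.1 h)
      simp [fl, hti, this]
  · rintro ⟨i, rfl⟩
    refine ⟨i, ?_⟩
    ext t
    simp only [Finset.mem_filter, Finset.mem_univ, true_and, Finset.mem_singleton, fl]
    by_cases hti : t = i
    · simp [hti]
    · simp [hti]

theorem fl_injective {n : ℕ} (v : Fin n → Bool) : Function.Injective (fl v) := by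
  intro i j h
  have := congrFun h i
  simp only [fl, decide_true, Bool.xor_true] at this
  by_contra hij
  simp [hij] at this

theorem two_mul_ncard {n : ℕ} (G : SimpleGraph (Fin n → Bool)) [DecidableRel G.Adj]
    (hG : G ≤ cube n) :
    2 * G.edgeSet.ncard = ∑ v, ∑ i, (if G.Adj v (fl v i) then 1 else 0) := by
  classical
  have h1 : G.edgeSet.ncard = G.edgeFinset.card := by
    rw [← SimpleGraph.coe_edgeFinset, Set.ncard_coe_finset]
  rw [h1, ← G.sum_degrees_eq_twice_card_edges]
  apply Finset.sum_congr rfl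
  intro v _
  rw [← Finset.card_filter, ← G.card_neighborFinset_eq_degree]
  symm
  apply Finset.card_bij (fun i _ => fl v i)
  · intro i hi
    simpa using hi
  · intro i _ j _ h
    exact fl_injective v h
  · intro w hw
    rw [SimpleGraph.mem_neighborFinset] at hw
    obtain ⟨i, rfl⟩ := (cube_adj_iff v w).1 (hG hw)
    exact ⟨i, by simpa using hw, rfl⟩

theorem ncard_cube (n : ℕ) : 2 * (cube n).edgeSet.ncard = 2 ^ n * n := by
  classical
  rw [two_mul_ncard (cube n) le_rfl]
  have : ∀ (v : Fin n → Bool) (i : Fin n), (cube n).Adj v (fl v i) :=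
    fun v i => (cube_adj_iff _ _).2 ⟨i, rfl⟩
  simp [this]

/-- the copy of `Q_3` at a frame -/
theorem hit_of_free {n : ℕ} (G : SimpleGraph (Fin n → Bool)) (hfree : (cube 3).Free G)
    (v : Fin n → Bool) (i j k : Fin n) (hij : i ≠ j) (hik : i ≠ k) (hjk : j ≠ k) :
    ∃ a b c, ¬ G.Adj (sh v i j k a b c) (fl (sh v i j k a b c) i) ∨
      ¬ G.Adj (sh v i j k a b c) (fl (sh v i j k a b c) j) ∨
      ¬ G.Adj (sh v i j k a b c) (fl (sh v i j k a b c) k) := by
  by_contra hcon
  push Not at hcon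
  apply hfree
  refine ⟨⟨⟨fun a => sh v i j k (a 0) (a 1) (a 2), ?_⟩, ?_⟩⟩
  · intro a b hab
    obtain ⟨t, rfl⟩ := (cube_adj_iff a b).1 hab
    have h := hcon (a 0) (a 1) (a 2)
    rw [fl_sh_i, fl_sh_j, fl_sh_k] at h
    fin_cases t
    · simpa [fl] using h.1
    · simpa [fl] using h.2.1
    · simpa [fl] using h.2.2
  · intro a b hab
    have hi := congrFun hab i
    have hj := congrFun hab j
    have hk := congrFun hab k
    simp [sh, hij, hik, hjk, hij.symm, hik.symm, hjk.symm] at hi hj hk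
    funext t
    fin_cases t
    · exact hi
    · exact hj
    · exact hk

/-- Upper bound for the number of edges of a `Q_3`-free subgraph of `Q_n`. -/
theorem edge_bound {n : ℕ} (hn : 3 ≤ n) (G : SimpleGraph (Fin n → Bool)) (hG : G ≤ cube n)
    (hfree : (cube 3).Free G) :
    (2 * G.edgeSet.ncard : ℝ) ≤
      (2 : ℝ) ^ n * n * (1 - 45591 / 310116 + 34196 / 25843 / ((n : ℝ) - 2)) := by
  classical
  set x : (Fin n → Bool) → Fin n → Bool := fun v i => !decide (G.Adj v (fl v i)) with hxdef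
  have hx : ∀ v i, x (fl v i) i = x v i := by
    intro v i
    simp only [hxdef, fl_fl]
    rw [G.adj_comm]
  have hit : ∀ (v : Fin n → Bool) (i j k : Fin n), i ≠ j → i ≠ k → j ≠ k →
      ∃ a b c, x (sh v i j k a b c) i = true ∨ x (sh v i j k a b c) j = true ∨
        x (sh v i j k a b c) k = true := by
    intro v i j k hij hik hjk
    obtain ⟨a, b, c, h⟩ := hit_of_free G hfree v i j k hij hik hjk
    refine ⟨a, b, c, ?_⟩
    simpa [hxdef] using h
  have hglob := global_ineq (by omega : 2 ≤ n) x hx hit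
  have hsum : (∑ v, ∑ i, ((x v i).toNat : ℤ)) = 2 ^ n * n - 2 * (G.edgeSet.ncard : ℤ) := by
    have h2 : (2 * (G.edgeSet.ncard : ℤ)) =
        ∑ v, ∑ i, (if G.Adj v (fl v i) then (1 : ℤ) else 0) := by
      exact_mod_cast two_mul_ncard G hG
    have h3 : ∀ (v : Fin n → Bool) (i : Fin n), ((x v i).toNat : ℤ) =
        1 - (if G.Adj v (fl v i) then (1 : ℤ) else 0) := by
      intro v i
      by_cases h : G.Adj v (fl v i) <;> simp [hxdef, h]
    rw [h2]
    simp only [h3, Finset.sum_sub_distrib]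
    simp
  rw [hsum] at hglob
  have hR : (45591 : ℝ) * ((2 : ℝ) ^ n * (n * (n - 1) * (n - 2))) ≤
      12 * (25843 * (((n : ℝ) - 1) * (n - 2)) * (2 ^ n * n - 2 * (G.edgeSet.ncard : ℝ)) +
        34196 * ((2 : ℝ) ^ n * n * (n - 1))) := by
    exact_mod_cast hglob
  have hn1 : (0 : ℝ) < (n : ℝ) - 1 := by
    have : (3 : ℝ) ≤ n := by exact_mod_cast hn
    linarith
  have hn2 : (0 : ℝ) < (n : ℝ) - 2 := by
    have : (3 : ℝ) ≤ n := by exact_mod_cast hn
    linarith
  -- divide by `n - 1`
  have hR2 : (45591 : ℝ) * ((2 : ℝ) ^ n * (n * (n - 2))) ≤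
      12 * (25843 * ((n : ℝ) - 2) * (2 ^ n * n - 2 * (G.edgeSet.ncard : ℝ)) +
        34196 * ((2 : ℝ) ^ n * n)) := by
    have h4 : ((n : ℝ) - 1) * (45591 * ((2 : ℝ) ^ n * (n * (n - 2)))) ≤
        ((n : ℝ) - 1) * (12 * (25843 * ((n : ℝ) - 2) * (2 ^ n * n - 2 * (G.edgeSet.ncard : ℝ)) +
        34196 * ((2 : ℝ) ^ n * n))) := by linarith
    exact le_of_mul_le_mul_left h4 hn1
  have h5 : (2 * G.edgeSet.ncard : ℝ) * (12 * 25843 * ((n : ℝ) - 2)) ≤
      ((2 : ℝ) ^ n * n * (1 - 45591 / 310116 + 34196 / 25843 / ((n : ℝ) - 2))) *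
        (12 * 25843 * ((n : ℝ) - 2)) := by
    have h6 : ((2 : ℝ) ^ n * n * (1 - 45591 / 310116 + 34196 / 25843 / ((n : ℝ) - 2))) *
        (12 * 25843 * ((n : ℝ) - 2)) = (2 : ℝ) ^ n * n * ((310116 - 45591) * ((n : ℝ) - 2) +
          12 * 34196) := by
      field_simp
      ring
    rw [h6]
    linarith
  exact le_of_mul_le_mul_right h5 (by positivity)

theorem bdd (n d : ℕ) : BddAbove {m : ℕ | ∃ G : SimpleGraph (Fin n → Bool),
    G ≤ cube n ∧ (cube d).Free G ∧ G.edgeSet.ncard = m} := by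
  refine ⟨(cube n).edgeSet.ncard, ?_⟩
  rintro m ⟨G, hG, -, rfl⟩
  exact Set.ncard_le_ncard (SimpleGraph.edgeSet_mono hG) (Set.toFinite _)

theorem le_exCube {n d : ℕ} (G : SimpleGraph (Fin n → Bool)) (hG : G ≤ cube n)
    (hfree : (cube d).Free G) : G.edgeSet.ncard ≤ exCube n d :=
  le_csSup (bdd n d) ⟨G, hG, hfree, rfl⟩

/-- The maximum in the definition of `exCube` is attained (for `d ≥ 1`). -/
theorem exCube_attained (n d : ℕ) (hd : 1 ≤ d) : ∃ G : SimpleGraph (Fin n → Bool),
    G ≤ cube n ∧ (cube d).Free G ∧ G.edgeSet.ncard = exCube n d := by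
  have hne : {m : ℕ | ∃ G : SimpleGraph (Fin n → Bool),
    G ≤ cube n ∧ (cube d).Free G ∧ G.edgeSet.ncard = m}.Nonempty := by
    refine ⟨_, ⊥, bot_le, ?_, rfl⟩
    apply SimpleGraph.free_bot
    intro h
    have : (cube d).Adj (fun _ => false) (fl (fun _ => false) ⟨0, hd⟩) :=
      (cube_adj_iff _ _).2 ⟨_, rfl⟩
    rw [h] at this
    exact this
  exact Nat.sSup_mem hne (bdd n d)

/-- one step of the averaging argument: `γ(n + 1, 3) ≤ γ(n, 3)`. -/
theorem average {n : ℕ} (G : SimpleGraph (Fin (n + 1) → Bool)) (hG : G ≤ cube (n + 1))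
    (hfree : (cube 3).Free G) :
    n * G.edgeSet.ncard ≤ 2 * (n + 1) * exCube n 3 := by
  classical
  -- the subgraph on the subcube `x_i = b`
  let H : Fin (n + 1) → Bool → SimpleGraph (Fin n → Bool) :=
    fun i b => G.comap (fun y => Fin.insertNth (α := fun _ => Bool) i b y)
  have hfl : ∀ (i : Fin (n + 1)) (b : Bool) (y : Fin n → Bool) (j : Fin n),
      (Fin.insertNth (α := fun _ => Bool) i b (fl y j)) =
        fl (Fin.insertNth (α := fun _ => Bool) i b y) (i.succAbove j) := by
    intro i b y j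
    funext t
    rcases Fin.eq_self_or_eq_succAbove i t with rfl | ⟨s, rfl⟩
    · simp [fl, (Fin.succAbove_ne t j).symm]
    · simp [fl]
  have hinj : ∀ i b, Function.Injective
      (fun y : Fin n → Bool => Fin.insertNth (α := fun _ => Bool) i b y) := by
    intro i b y z h
    exact Fin.insertNth_right_injective (α := fun _ => Bool) (p := i) b h
  have hHle : ∀ i b, H i b ≤ cube n := by
    intro i b y z hyz
    have h1 : (cube (n + 1)).Adj (Fin.insertNth (α := fun _ => Bool) i b y)
      (Fin.insertNth (α := fun _ => Bool) i b z) := hG hyz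
    obtain ⟨t, ht⟩ := (cube_adj_iff _ _).1 h1
    rcases Fin.eq_self_or_eq_succAbove i t with rfl | ⟨s, rfl⟩
    · exfalso
      have := congrFun ht t
      simp [fl] at this
    · rw [cube_adj_iff]
      refine ⟨s, ?_⟩
      rw [← hfl] at ht
      exact hinj _ _ ht
  have hHfree : ∀ i b, (cube 3).Free (H i b) := by
    rintro i b ⟨f⟩
    exact hfree ⟨⟨⟨fun a => Fin.insertNth (α := fun _ => Bool) i b (f a), fun {a a'} h =>
      f.toHom.map_adj h⟩, (hinj i b).comp f.injective⟩⟩
  have hbound : ∀ i b, (H i b).edgeSet.ncard ≤ exCube n 3 := fun i b =>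
    le_exCube _ (hHle i b) (hHfree i b)
  have hcount : ∑ i, ∑ b, 2 * (H i b).edgeSet.ncard = n * (2 * G.edgeSet.ncard) := by
    have e1 : ∀ i b, 2 * (H i b).edgeSet.ncard = ∑ y : Fin n → Bool, ∑ j : Fin n,
        (if G.Adj (Fin.insertNth (α := fun _ => Bool) i b y)
          (fl (Fin.insertNth (α := fun _ => Bool) i b y) (i.succAbove j)) then 1 else 0) := by
      intro i b
      rw [two_mul_ncard _ (hHle i b)]
      apply Finset.sum_congr rfl
      intro y _
      apply Finset.sum_congr rfl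
      intro j _
      rw [← hfl]
      rfl
    have e2 : ∀ i, ∑ b, 2 * (H i b).edgeSet.ncard = ∑ v : Fin (n + 1) → Bool, ∑ j : Fin n,
        (if G.Adj v (fl v (i.succAbove j)) then 1 else 0) := by
      intro i
      simp only [e1]
      rw [← Fintype.sum_prod_type' (f := fun (b : Bool) (y : Fin n → Bool) => ∑ j : Fin n,
        (if G.Adj (Fin.insertNth (α := fun _ => Bool) i b y)
          (fl (Fin.insertNth (α := fun _ => Bool) i b y) (i.succAbove j)) then 1 else 0))]
      exact Fintype.sum_equiv (Fin.insertNthEquiv (fun _ => Bool) i) _ _ (fun p => rfl)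
    have e3 : ∀ (v : Fin (n + 1) → Bool) (i : Fin (n + 1)), ∑ j : Fin n,
        (if G.Adj v (fl v (i.succAbove j)) then 1 else 0) + (if G.Adj v (fl v i) then 1 else 0) =
        ∑ t, (if G.Adj v (fl v t) then 1 else 0) := by
      intro v i
      rw [Fin.sum_univ_succAbove _ i, add_comm]
    have e4 : ∑ i, ∑ b, 2 * (H i b).edgeSet.ncard + 2 * G.edgeSet.ncard =
        (n + 1) * (2 * G.edgeSet.ncard) := by
      simp only [e2]
      rw [two_mul_ncard G hG, Finset.sum_comm, ← Finset.sum_add_distrib, Finset.mul_sum]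
      apply Finset.sum_congr rfl
      intro v _
      rw [← Finset.sum_add_distrib]
      simp only [e3]
      simp
    have e5 : (n + 1) * (2 * G.edgeSet.ncard) = n * (2 * G.edgeSet.ncard) +
      2 * G.edgeSet.ncard := by ring
    omega
  have hle : ∑ i : Fin (n + 1), ∑ b : Bool, 2 * (H i b).edgeSet.ncard ≤
      ∑ _i : Fin (n + 1), ∑ _b : Bool, 2 * exCube n 3 := by
    apply Finset.sum_le_sum
    intro i _
    apply Finset.sum_le_sum
    intro b _
    exact Nat.mul_le_mul_left 2 (hbound i b)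
  rw [hcount] at hle
  simp only [Finset.sum_const, Finset.card_univ, Fintype.card_bool, Fintype.card_fin,
    smul_eq_mul] at hle
  have h7 : 2 * (n * G.edgeSet.ncard) ≤ 2 * (2 * (n + 1) * exCube n 3) := by
    calc 2 * (n * G.edgeSet.ncard) = n * (2 * G.edgeSet.ncard) := by ring
      _ ≤ _ := hle
      _ = _ := by ring
  omega

theorem gam_antitone : Antitone (fun n => gam (n + 1) 3) := by
  apply antitone_nat_of_succ_le
  intro n
  obtain ⟨G, hG, hfree, hcard⟩ := exCube_attained (n + 1 + 1) 3 (by norm_num)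
  have h := average G hG hfree
  rw [hcard] at h
  have c1 : ((cube (n + 1)).edgeSet.ncard : ℝ) = 2 ^ n * (n + 1) := by
    have := ncard_cube (n + 1)
    have h2 : (2 : ℝ) * ((cube (n + 1)).edgeSet.ncard : ℝ) = 2 ^ (n + 1) * (n + 1) := by
      exact_mod_cast this
    rw [pow_succ] at h2
    linarith
  have c2 : ((cube (n + 1 + 1)).edgeSet.ncard : ℝ) = 2 ^ (n + 1) * (n + 2) := by
    have := ncard_cube (n + 1 + 1)
    have h2 : (2 : ℝ) * ((cube (n + 1 + 1)).edgeSet.ncard : ℝ) =
        2 ^ (n + 1 + 1) * ((n : ℝ) + 1 + 1) := by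
      exact_mod_cast this
    rw [pow_succ] at h2
    linarith
  simp only [gam]
  rw [c1, c2, div_le_div_iff₀ (by positivity) (by positivity)]
  have hR : ((n : ℝ) + 1) * (exCube (n + 1 + 1) 3 : ℝ) ≤
      2 * ((n : ℝ) + 1 + 1) * (exCube (n + 1) 3 : ℝ) := by exact_mod_cast h
  have hp : (0 : ℝ) < 2 ^ n := by positivity
  have e : (exCube (n + 1 + 1) 3 : ℝ) * (2 ^ n * (n + 1)) =
    2 ^ n * (((n : ℝ) + 1) * (exCube (n + 1 + 1) 3 : ℝ)) := by ring
  have e' : (exCube (n + 1) 3 : ℝ) * (2 ^ (n + 1) * (n + 2)) =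
    2 ^ n * (2 * ((n : ℝ) + 1 + 1) * (exCube (n + 1) 3 : ℝ)) := by
    rw [pow_succ]; ring
  rw [e, e']
  exact mul_le_mul_of_nonneg_left hR hp.le

theorem gam_le {n : ℕ} (hn : 3 ≤ n) :
    gam n 3 ≤ 1 - 45591 / 310116 + 34196 / 25843 / ((n : ℝ) - 2) := by
  obtain ⟨G, hG, hfree, hcard⟩ := exCube_attained n 3 (by norm_num)
  have h := edge_bound hn G hG hfree
  rw [hcard] at h
  have hn3 : (3 : ℝ) ≤ n := by exact_mod_cast hn
  have c1 : (2 : ℝ) * ((cube n).edgeSet.ncard : ℝ) = 2 ^ n * n := by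
    exact_mod_cast ncard_cube n
  have hpos : (0 : ℝ) < ((cube n).edgeSet.ncard : ℝ) := by
    have : (0 : ℝ) < 2 ^ n * n := by positivity
    linarith
  rw [gam, div_le_iff₀ hpos]
  rw [← c1] at h
  linarith

/-- **Main result.** The limit `γ_3 = lim γ(n, 3)` exists and is at most `0.853`. -/
theorem result : ∃ γ : ℝ, Filter.Tendsto (fun n => gam n 3) Filter.atTop (nhds γ) ∧
    γ ≤ 853 / 1000 := by
  have hbdd : BddBelow (Set.range (fun n => gam (n + 1) 3)) := by
    refine ⟨0, ?_⟩
    rintro _ ⟨n, rfl⟩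
    simp only [gam]
    positivity
  have hlim := tendsto_atTop_ciInf gam_antitone hbdd
  have hlim2 : Filter.Tendsto (fun n => gam n 3) Filter.atTop
      (nhds (⨅ n, gam (n + 1) 3)) := (Filter.tendsto_add_atTop_iff_nat 1).1 hlim
  refine ⟨_, hlim2, ?_⟩
  have hup : Filter.Tendsto (fun n : ℕ => (1 : ℝ) - 45591 / 310116 +
      34196 / 25843 / ((n : ℝ) - 2)) Filter.atTop (nhds (1 - 45591 / 310116 + 0)) := by
    apply Filter.Tendsto.const_add
    apply Filter.Tendsto.div_atTop tendsto_const_nhds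
    exact Filter.tendsto_atTop_add_const_right _ (-2) tendsto_natCast_atTop_atTop
  have hle := le_of_tendsto_of_tendsto hlim2 hup (by
    filter_upwards [Filter.eventually_ge_atTop 3] with n hn
    exact gam_le hn)
  refine hle.trans ?_
  norm_num

end Pool.Agent.Results.MP_53850c_co.GammaThreeBound
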